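import Pool.Agent.BEW.StmtsD
import Pool.Agent.Helper29_BEL.GLP

/-!
# Squad BEW, row BOO: the window
-/

set_option autoImplicit false

namespace Pool.Agent.BEW.H11

open Set Filter Topology MeasureTheory
open scoped InnerProductSpace ENNReal
open Pool.Agent.BE01 Pool.Agent.BEL Pool.Agent.BEG Pool.Agent.BEH Pool.Agent.BER

noncomputable section

/-- continuity argument -/
theorem boot {T : ℝ} {P Q : ℝ → Prop} (hPc : IsClosed {s | P s}) (hQo : IsOpen {s | Q s})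
    (hQP : ∀ s, Q s → P s) (h0 : P 0)
    (h : ∀ s ∈ Icc 0 T, (∀ s' ∈ Icc 0 s, P s') → Q s) : ∀ s ∈ Icc 0 T, P s := by
  by_contra hcon
  push Not at hcon
  obtain ⟨s1, hs1, hP1⟩ := hcon
  have hNne : {s | s ∈ Icc 0 T ∧ ¬ P s}.Nonempty := ⟨s1, hs1, hP1⟩
  have hNb : BddBelow {s | s ∈ Icc 0 T ∧ ¬ P s} := ⟨0, fun s hs => hs.1.1⟩
  obtain ⟨m, hm⟩ : ∃ m, m = sInf {s | s ∈ Icc 0 T ∧ ¬ P s} := ⟨_, rfl⟩
  have hm0 : 0 ≤ m := by
    rw [hm]
    exact le_csInf hNne (fun s hs => hs.1.1)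
  have hmle : ∀ s, s ∈ Icc 0 T → ¬ P s → m ≤ s := by
    intro s h1 h2
    rw [hm]
    exact csInf_le hNb ⟨h1, h2⟩
  have hmT : m ≤ T := (hmle s1 hs1 hP1).trans hs1.2
  have hlt : ∀ s', 0 ≤ s' → s' < m → P s' := by
    intro s' h1 h2
    by_contra h3
    exact absurd (hmle s' ⟨h1, h2.le.trans hmT⟩ h3) (not_le.mpr h2)
  have hPm : P m := by
    rcases hm0.eq_or_lt with h1 | h1
    · rw [← h1]
      exact h0
    · have h2 : m ∈ closure (Ioo 0 m) := by
        rw [closure_Ioo h1.ne]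
        exact ⟨h1.le, le_refl m⟩
      have h3 : Ioo 0 m ⊆ {s | P s} := fun s hs => hlt s hs.1.le hs.2
      exact (closure_minimal h3 hPc) h2
  have hQm : Q m := by
    refine h m ⟨hm0, hmT⟩ ?_
    intro s' hs'
    rcases hs'.2.eq_or_lt with h1 | h1
    · rw [h1]
      exact hPm
    · exact hlt s' hs'.1 h1
  have hnb : {s | Q s} ∈ 𝓝 m := hQo.mem_nhds hQm
  obtain ⟨δ, hδ, hball⟩ := Metric.mem_nhds_iff.mp hnb
  obtain ⟨n, hn, hnm⟩ := exists_lt_of_csInf_lt hNne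
    (show sInf {s | s ∈ Icc 0 T ∧ ¬ P s} < m + δ by
      rw [← hm]
      linarith)
  have hmn : m ≤ n := hmle n hn.1 hn.2
  apply hn.2
  apply hQP
  apply hball
  rw [Metric.mem_ball, Real.dist_eq, abs_of_nonneg (by linarith)]
  linarith

variable {X : Type} [MeasurableSpace X]

theorem vel_meas {μ : Measure X} {b : ℕ → X → ℝ} {B m0 : ℝ} (hO : Ons μ b B m0)
    (S : Finset ℕ) (v : ℕ → ℝ → ℝ) (t : ℝ) : Measurable (vel b S v t) := by
  unfold vel
  exact Finset.measurable_sum _ (fun k _ => (hO.meas k).const_mul _)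

theorem vel_bdd {μ : Measure X} {b : ℕ → X → ℝ} {B m0 : ℝ} (hO : Ons μ b B m0)
    (S : Finset ℕ) (v : ℕ → ℝ → ℝ) (t : ℝ) (x : X) :
    |vel b S v t x| ≤ ∑ k ∈ S, |v k t| * B := by
  unfold vel
  refine (Finset.abs_sum_le_sum_abs _ _).trans (Finset.sum_le_sum fun k _ => ?_)
  rw [abs_mul]
  exact mul_le_mul_of_nonneg_left (hO.bdd k x) (abs_nonneg _)

theorem vel_sq_int {μ : Measure X} {b : ℕ → X → ℝ} {B m0 : ℝ} (hO : Ons μ b B m0)
    (S : Finset ℕ) (v : ℕ → ℝ → ℝ) (t : ℝ) :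
    Integrable (fun x => vel b S v t x ^ 2) μ := by
  haveI := hO.fin
  refine Integrable.of_bound ((vel_meas hO S v t).pow_const 2).aestronglyMeasurable
    ((∑ k ∈ S, |v k t| * B) ^ 2) (Eventually.of_forall fun x => ?_)
  rw [Real.norm_eq_abs, abs_pow]
  exact pow_le_pow_left₀ (abs_nonneg _) (vel_bdd hO S v t x) 2

theorem vel_split (b : ℕ → X → ℝ) {M : ℕ} (hM : 1 ≤ M) (v : ℕ → ℝ → ℝ) (t : ℝ) (x : X) :
    vel b (Finset.range M) v t x = v 0 t * b 0 x + vel b (Finset.Ico 1 M) v t x := by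
  unfold vel
  rw [Finset.range_eq_Ico, Finset.sum_eq_sum_Ico_succ_bot hM]

/-- The estimates at one time. -/
theorem boo_est (lif : LifStmt) (bsl : BslStmt) {al B m0 η R : ℝ} (hal : 0 < al) (hB : 0 < B)
    (hm0 : 0 < m0) (hη : 0 < η) (hη1 : η ≤ 1) (hR : 0 < R) (hBR : 14 * B * R ≤ 1)
    {μ : Measure X} {b : ℕ → X → ℝ} {om : ℕ → ℝ} {M : ℕ} {p v : ℕ → ℝ → ℝ} {t : ℝ}
    (hO : Ons μ b B m0) (hF : Frq om) (hM : 1 ≤ M) (hG : Gal μ b om M al p v)
    (h1 : R2 p v t ≤ 4 * R ^ 2) (h2 : F2 M p v t ≤ (4 * η * R) ^ 2)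
    (h3 : S2 om M v t ≤ (4 * R) ^ 2) :
    (∀ x, |vel b (Finset.range M) v t x| ≤ 14 * B * R) ∧
    |(-(2 * (v 0 t * ∫ x, gl 1 al 1 (vel b (Finset.range M) v t x) * b 0 x ∂μ)))| ≤
      ((14 * B) ^ al * (56 * B ^ 2 * m0 + 336 * B ^ 2 * m0 +
        (al + 1) * ((4 + 14 * B ^ 2 * m0) ^ 2 + 32))) * R ^ al * R ^ 2 ∧
    |(-(2 * ∫ x, gl 1 al 1 (vel b (Finset.range M) v t x) *
      vel b (Finset.Ico 1 M) v t x ∂μ))| ≤
      ((14 * B) ^ al * (56 * B ^ 2 * m0 + 336 * B ^ 2 * m0 +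
        (al + 1) * ((4 + 14 * B ^ 2 * m0) ^ 2 + 32))) * R ^ al * R ^ 2 ∧
    |(-(2 * ∫ x, ql 1 al 1 (vel b (Finset.range M) v t x) *
      vel b (Finset.range M) (dd v) t x * vel b (Finset.Ico 1 M) (dd v) t x ∂μ))| ≤
      ((14 * B) ^ al * (56 * B ^ 2 * m0 + 336 * B ^ 2 * m0 +
        (al + 1) * ((4 + 14 * B ^ 2 * m0) ^ 2 + 32))) * R ^ al * R ^ 2 := by
  haveI := hO.fin
  have hp0 : |p 0 t| ≤ 2 * R := by
    apply abs_le_of_sq_le_sq _ (by linarith)
    unfold R2 at h1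
    nlinarith [sq_nonneg (v 0 t)]
  have hv0 : |v 0 t| ≤ 2 * R := by
    apply abs_le_of_sq_le_sq _ (by linarith)
    unfold R2 at h1
    nlinarith [sq_nonneg (p 0 t)]
  have hsv : ∑ k ∈ Finset.Ico 1 M, v k t ^ 2 ≤ (4 * η * R) ^ 2 := by
    refine le_trans ?_ h2
    unfold F2
    exact Finset.sum_le_sum fun k _ => by nlinarith [sq_nonneg (p k t)]
  have hso : ∑ k ∈ Finset.Ico 1 M, (om k * v k t) ^ 2 ≤ (4 * R) ^ 2 := by
    refine le_trans ?_ h3
    unfold S2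
    exact Finset.sum_le_sum fun k _ => by nlinarith [sq_nonneg (dd v k t)]
  have hsd : ∑ k ∈ Finset.Ico 1 M, dd v k t ^ 2 ≤ (4 * R) ^ 2 := by
    refine le_trans ?_ h3
    unfold S2
    exact Finset.sum_le_sum fun k _ => by nlinarith [sq_nonneg (om k * v k t)]
  have hh : ∀ x, |vel b (Finset.Ico 1 M) v t x| ≤ 12 * B * R := by
    intro x
    have := lif X b om B M 1 (fun k => v k t) (4 * η * R) (4 * R) x hO.bdd hF.lo le_rfl
      (by positivity) (by positivity) hsv hso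
    refine le_trans this ?_
    rw [Nat.cast_one, Real.sqrt_one]
    have h4 : B * (η * R) ≤ B * (1 * R) :=
      mul_le_mul_of_nonneg_left (mul_le_mul_of_nonneg_right hη1 hR.le) hB.le
    linarith
  have hvel : ∀ x, |vel b (Finset.range M) v t x| ≤ 14 * B * R := by
    intro x
    rw [vel_split b hM]
    refine (abs_add_le _ _).trans ?_
    have h4 : |v 0 t * b 0 x| ≤ 2 * R * B := by
      rw [abs_mul]
      exact mul_le_mul hv0 (hO.bdd 0 x) (abs_nonneg _) (by linarith)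
    have h5 := hh x
    linarith
  have hBR0 : 0 ≤ 14 * B * R := by positivity
  have hgl : ∀ x, |gl 1 al 1 (vel b (Finset.range M) v t x)| ≤ (14 * B * R) ^ al * (14 * B * R) := by
    intro x
    refine (Pool.Agent.BEL.H29.gl_abs one_pos hal _ zero_le_one).trans ?_
    unfold gf
    rw [one_mul, abs_mul, abs_of_nonneg (Real.rpow_nonneg (abs_nonneg _) _)]
    exact mul_le_mul (Real.rpow_le_rpow (abs_nonneg _) (hvel x) hal.le) (hvel x) (abs_nonneg _)
      (Real.rpow_nonneg hBR0 _)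
  have hql : ∀ x, |ql 1 al 1 (vel b (Finset.range M) v t x)| ≤ (al + 1) * (14 * B * R) ^ al := by
    intro x
    rw [abs_of_nonneg (Pool.Agent.BEL.H29.ql_nonneg one_pos hal zero_le_one _)]
    unfold ql mm
    rw [one_mul]
    apply mul_le_mul_of_nonneg_left _ (by linarith)
    exact Real.rpow_le_rpow (le_min (abs_nonneg _) zero_le_one)
      ((min_le_left _ _).trans (hvel x)) hal.le
  have hmulr : (14 * B * R) ^ al = (14 * B) ^ al * R ^ al :=
    Real.mul_rpow (by positivity) hR.le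
  have hq1 : (14 * B * R) ^ al ≤ 1 := Real.rpow_le_one hBR0 hBR hal.le
  have hq0 : 0 ≤ (14 * B * R) ^ al := Real.rpow_nonneg hBR0 _
  obtain ⟨Z, hZ⟩ : ∃ Z, Z = (14 * B * R) ^ al := ⟨_, rfl⟩
  have hrw : ((14 * B) ^ al * (56 * B ^ 2 * m0 + 336 * B ^ 2 * m0 +
        (al + 1) * ((4 + 14 * B ^ 2 * m0) ^ 2 + 32))) * R ^ al * R ^ 2 =
      Z * (56 * B ^ 2 * m0 + 336 * B ^ 2 * m0 +
        (al + 1) * ((4 + 14 * B ^ 2 * m0) ^ 2 + 32)) * R ^ 2 := by
    rw [hZ, hmulr]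
    ring
  rw [hrw]
  rw [← hZ] at hgl hql hq1 hq0
  have hA0 : 0 ≤ Z * (56 * B ^ 2 * m0) * R ^ 2 := by positivity
  have hA1 : 0 ≤ Z * (336 * B ^ 2 * m0) * R ^ 2 := by positivity
  have hA2 : 0 ≤ Z * ((al + 1) * ((4 + 14 * B ^ 2 * m0) ^ 2 + 32)) * R ^ 2 := by positivity
  have hG0 : |∫ x, gl 1 al 1 (vel b (Finset.range M) v t x) * b 0 x ∂μ| ≤
      Z * (14 * B * R) * B * m0 := by
    have h4 := norm_integral_le_of_norm_le_const (μ := μ)
      (f := fun x => gl 1 al 1 (vel b (Finset.range M) v t x) * b 0 x)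
      (C := Z * (14 * B * R) * B) (Eventually.of_forall fun x => by
        rw [Real.norm_eq_abs, abs_mul]
        exact mul_le_mul (hgl x) (hO.bdd 0 x) (abs_nonneg _) (by positivity))
    rw [Real.norm_eq_abs] at h4
    exact h4.trans (mul_le_mul_of_nonneg_left hO.mass (by positivity))
  refine ⟨hvel, ?_, ?_, ?_⟩
  · rw [abs_neg, abs_mul, abs_mul, abs_of_pos (by norm_num : (0 : ℝ) < 2)]
    have h5 : |v 0 t| * |∫ x, gl 1 al 1 (vel b (Finset.range M) v t x) * b 0 x ∂μ| ≤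
        2 * R * (Z * (14 * B * R) * B * m0) :=
      mul_le_mul hv0 hG0 (abs_nonneg _) (by positivity)
    have h6 : 2 * (2 * R * (Z * (14 * B * R) * B * m0)) = Z * (56 * B ^ 2 * m0) * R ^ 2 := by
      ring
    have h7 : Z * (56 * B ^ 2 * m0 + 336 * B ^ 2 * m0 +
        (al + 1) * ((4 + 14 * B ^ 2 * m0) ^ 2 + 32)) * R ^ 2 =
        Z * (56 * B ^ 2 * m0) * R ^ 2 + Z * (336 * B ^ 2 * m0) * R ^ 2 +
        Z * ((al + 1) * ((4 + 14 * B ^ 2 * m0) ^ 2 + 32)) * R ^ 2 := by ring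
    rw [h7]
    linarith
  · rw [abs_neg, abs_mul, abs_of_pos (by norm_num : (0 : ℝ) < 2)]
    have h4 := norm_integral_le_of_norm_le_const (μ := μ)
      (f := fun x => gl 1 al 1 (vel b (Finset.range M) v t x) * vel b (Finset.Ico 1 M) v t x)
      (C := Z * (14 * B * R) * (12 * B * R)) (Eventually.of_forall fun x => by
        rw [Real.norm_eq_abs, abs_mul]
        exact mul_le_mul (hgl x) (hh x) (abs_nonneg _) (by positivity))
    rw [Real.norm_eq_abs] at h4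
    have h5 := h4.trans (mul_le_mul_of_nonneg_left hO.mass (by positivity))
    have h6 : 2 * (Z * (14 * B * R) * (12 * B * R) * m0) = Z * (336 * B ^ 2 * m0) * R ^ 2 := by
      ring
    have h7 : Z * (56 * B ^ 2 * m0 + 336 * B ^ 2 * m0 +
        (al + 1) * ((4 + 14 * B ^ 2 * m0) ^ 2 + 32)) * R ^ 2 =
        Z * (56 * B ^ 2 * m0) * R ^ 2 + Z * (336 * B ^ 2 * m0) * R ^ 2 +
        Z * ((al + 1) * ((4 + 14 * B ^ 2 * m0) ^ 2 + 32)) * R ^ 2 := by ring
    rw [h7]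
    linarith
  · rw [abs_neg, abs_mul, abs_of_pos (by norm_num : (0 : ℝ) < 2)]
    have hd0 : |dd v 0 t| ≤ (4 + 14 * B ^ 2 * m0) * R := by
      have h8 : dd v 0 t = -(om 0 * p 0 t) -
          ∫ x, gl 1 al 1 (vel b (Finset.range M) v t x) * b 0 x ∂μ :=
        (hG.dv 0 (by omega) t).deriv
      rw [h8]
      have h9 : |om 0 * p 0 t| ≤ 2 * (2 * R) := by
        rw [abs_mul]
        have h10 : 0 ≤ om 0 := by
          have := hF.lo 0
          rw [Nat.cast_zero] at this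
          linarith
        rw [abs_of_nonneg h10]
        exact mul_le_mul hF.o0 hp0 (abs_nonneg _) (by norm_num)
      have h11 : Z * (14 * B * R) * B * m0 ≤ 1 * (14 * B * R) * B * m0 := by
        have h12 : Z * (14 * B * R) ≤ 1 * (14 * B * R) := mul_le_mul_of_nonneg_right hq1 hBR0
        exact mul_le_mul_of_nonneg_right (mul_le_mul_of_nonneg_right h12 hB.le) hm0.le
      have h13 : |-(om 0 * p 0 t) - ∫ x, gl 1 al 1 (vel b (Finset.range M) v t x) * b 0 x ∂μ| ≤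
          |om 0 * p 0 t| + |∫ x, gl 1 al 1 (vel b (Finset.range M) v t x) * b 0 x ∂μ| := by
        refine (abs_sub _ _).trans ?_
        rw [abs_neg]
      calc _ ≤ _ := h13
        _ ≤ 2 * (2 * R) + 1 * (14 * B * R) * B * m0 := by linarith
        _ = (4 + 14 * B ^ 2 * m0) * R := by ring
    have hd2 : dd v 0 t ^ 2 ≤ ((4 + 14 * B ^ 2 * m0) * R) ^ 2 := by
      rw [← sq_abs]
      exact pow_le_pow_left₀ (abs_nonneg _) hd0 2
    have hI1 : ∫ x, vel b (Finset.range M) (dd v) t x ^ 2 ∂μ ≤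
        ((4 + 14 * B ^ 2 * m0) * R) ^ 2 + (4 * R) ^ 2 := by
      have h8 := (bsl X μ b B m0 hO).2 (Finset.range M) (fun k => dd v k t)
      have h9 : ∫ x, vel b (Finset.range M) (dd v) t x ^ 2 ∂μ =
          ∑ k ∈ Finset.range M, dd v k t ^ 2 := h8
      rw [h9, Finset.range_eq_Ico, Finset.sum_eq_sum_Ico_succ_bot hM]
      exact add_le_add hd2 hsd
    have hI2 : ∫ x, vel b (Finset.Ico 1 M) (dd v) t x ^ 2 ∂μ ≤ (4 * R) ^ 2 := by
      have h8 := (bsl X μ b B m0 hO).2 (Finset.Ico 1 M) (fun k => dd v k t)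
      have h9 : ∫ x, vel b (Finset.Ico 1 M) (dd v) t x ^ 2 ∂μ =
          ∑ k ∈ Finset.Ico 1 M, dd v k t ^ 2 := h8
      rw [h9]
      exact hsd
    have hint : Integrable (fun x => vel b (Finset.range M) (dd v) t x ^ 2 +
        vel b (Finset.Ico 1 M) (dd v) t x ^ 2) μ :=
      (vel_sq_int hO (Finset.range M) (dd v) t).add (vel_sq_int hO (Finset.Ico 1 M) (dd v) t)
    have h14 : ‖∫ x, ql 1 al 1 (vel b (Finset.range M) v t x) *
        vel b (Finset.range M) (dd v) t x * vel b (Finset.Ico 1 M) (dd v) t x ∂μ‖ ≤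
        ∫ x, (al + 1) * Z / 2 * (vel b (Finset.range M) (dd v) t x ^ 2 +
          vel b (Finset.Ico 1 M) (dd v) t x ^ 2) ∂μ := by
      apply norm_integral_le_of_norm_le (hint.const_mul _)
      refine Eventually.of_forall fun x => ?_
      rw [Real.norm_eq_abs, abs_mul, abs_mul]
      have h15 := hql x
      have h16 : |vel b (Finset.range M) (dd v) t x| * |vel b (Finset.Ico 1 M) (dd v) t x| ≤
          (vel b (Finset.range M) (dd v) t x ^ 2 + vel b (Finset.Ico 1 M) (dd v) t x ^ 2) / 2 := by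
        have h17 := sq_nonneg (|vel b (Finset.range M) (dd v) t x| -
          |vel b (Finset.Ico 1 M) (dd v) t x|)
        have h18 := sq_abs (vel b (Finset.range M) (dd v) t x)
        have h19 := sq_abs (vel b (Finset.Ico 1 M) (dd v) t x)
        nlinarith
      rw [mul_assoc]
      calc _ ≤ (al + 1) * Z * ((vel b (Finset.range M) (dd v) t x ^ 2 +
            vel b (Finset.Ico 1 M) (dd v) t x ^ 2) / 2) :=
            mul_le_mul h15 h16 (by positivity) (by positivity)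
        _ = _ := by ring
    rw [integral_const_mul, integral_add (vel_sq_int hO (Finset.range M) (dd v) t)
      (vel_sq_int hO (Finset.Ico 1 M) (dd v) t), Real.norm_eq_abs] at h14
    have h20 : (al + 1) * Z / 2 * (∫ x, vel b (Finset.range M) (dd v) t x ^ 2 ∂μ +
        ∫ x, vel b (Finset.Ico 1 M) (dd v) t x ^ 2 ∂μ) ≤
        (al + 1) * Z / 2 * (((4 + 14 * B ^ 2 * m0) * R) ^ 2 + (4 * R) ^ 2 + (4 * R) ^ 2) :=
      mul_le_mul_of_nonneg_left (add_le_add hI1 hI2) (by positivity)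
    have h6 : 2 * ((al + 1) * Z / 2 * (((4 + 14 * B ^ 2 * m0) * R) ^ 2 + (4 * R) ^ 2 +
        (4 * R) ^ 2)) = Z * ((al + 1) * ((4 + 14 * B ^ 2 * m0) ^ 2 + 32)) * R ^ 2 := by
      ring
    have h7 : Z * (56 * B ^ 2 * m0 + 336 * B ^ 2 * m0 +
        (al + 1) * ((4 + 14 * B ^ 2 * m0) ^ 2 + 32)) * R ^ 2 =
        Z * (56 * B ^ 2 * m0) * R ^ 2 + Z * (336 * B ^ 2 * m0) * R ^ 2 +
        Z * ((al + 1) * ((4 + 14 * B ^ 2 * m0) ^ 2 + 32)) * R ^ 2 := by ring
    rw [h7]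
    linarith

/-- mean value inequality -/
theorem boo_mvt {f g : ℝ → ℝ} (hf : ∀ t, HasDerivAt f (g t) t) {t0 s C : ℝ} (hs : 0 ≤ s)
    (hb : ∀ s' ∈ Icc 0 s, |g (t0 + s')| ≤ C) : |f (t0 + s) - f t0| ≤ C * s := by
  have h1 := norm_image_sub_le_of_norm_deriv_le_segment' (f := f) (f' := g) (C := C)
    (a := t0) (b := t0 + s) (fun x _ => (hf x).hasDerivWithinAt)
    (fun x hx => by
      have h2 := hb (x - t0) ⟨by linarith [hx.1], by linarith [hx.2]⟩
      rwa [add_sub_cancel] at h2) (t0 + s) ⟨by linarith, le_refl _⟩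
  rwa [Real.norm_eq_abs, add_sub_cancel_left] at h1

theorem boo (lif : LifStmt) (bsl : BslStmt) (der : DerStmt) : BooStmt := by
  intro al B m0 η T hal hB hm0 hη hη1 hT
  obtain ⟨C1, hC1⟩ : ∃ C1, C1 = ((14 * B) ^ al * (56 * B ^ 2 * m0 + 336 * B ^ 2 * m0 +
        (al + 1) * ((4 + 14 * B ^ 2 * m0) ^ 2 + 32))) := ⟨_, rfl⟩
  have hC1pos : 0 < C1 := by
    rw [hC1]
    have h1 : 0 < (14 * B) ^ al := Real.rpow_pos_of_pos (by positivity) _
    positivity
  refine ⟨min (1 / (14 * B)) ((η ^ 2 / (2 * C1 * T)) ^ (1 / al)), ?_, ?_⟩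
  · apply lt_min
    · positivity
    · exact Real.rpow_pos_of_pos (by positivity) _
  intro X _ μ b om M p v t0 R hO hF hM hG hR hRR hR2 hF2 hS2
  have hBR : 14 * B * R ≤ 1 := by
    have h1 : R ≤ 1 / (14 * B) := hRR.trans (min_le_left _ _)
    rw [le_div_iff₀ (by positivity)] at h1
    linarith
  have hRal : C1 * R ^ al * T ≤ η ^ 2 / 2 := by
    have h1 : R ≤ (η ^ 2 / (2 * C1 * T)) ^ (1 / al) := hRR.trans (min_le_right _ _)
    have h2 : R ^ al ≤ ((η ^ 2 / (2 * C1 * T)) ^ (1 / al)) ^ al :=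
      Real.rpow_le_rpow hR.le h1 hal.le
    rw [← Real.rpow_mul (by positivity), one_div, inv_mul_cancel₀ hal.ne', Real.rpow_one,
      le_div_iff₀ (by positivity)] at h2
    linarith
  obtain ⟨hdR, hdF, -, hdS⟩ := der X μ b om M al B m0 p v hal hO hM hG
  have cR : Continuous (R2 p v) :=
    continuous_iff_continuousAt.mpr fun t => (hdR t).continuousAt
  have cF : Continuous (F2 M p v) :=
    continuous_iff_continuousAt.mpr fun t => (hdF t).continuousAt
  have cS : Continuous (S2 om M v) :=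
    continuous_iff_continuousAt.mpr fun t => (hdS t).continuousAt
  have cadd : Continuous (fun s : ℝ => t0 + s) := continuous_const.add continuous_id
  have hη2 : η ^ 2 ≤ 1 := by nlinarith
  have key := boot (T := T)
    (P := fun s => R ^ 2 / 4 ≤ R2 p v (t0 + s) ∧ R2 p v (t0 + s) ≤ 4 * R ^ 2 ∧
      F2 M p v (t0 + s) ≤ (4 * η * R) ^ 2 ∧ S2 om M v (t0 + s) ≤ (4 * R) ^ 2)
    (Q := fun s => R ^ 2 / 4 < R2 p v (t0 + s) ∧ R2 p v (t0 + s) < 4 * R ^ 2 ∧
      F2 M p v (t0 + s) < (4 * η * R) ^ 2 ∧ S2 om M v (t0 + s) < (4 * R) ^ 2)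
    ((isClosed_le continuous_const (cR.comp cadd)).inter
      ((isClosed_le (cR.comp cadd) continuous_const).inter
        ((isClosed_le (cF.comp cadd) continuous_const).inter
          (isClosed_le (cS.comp cadd) continuous_const))))
    ((isOpen_lt continuous_const (cR.comp cadd)).inter
      ((isOpen_lt (cR.comp cadd) continuous_const).inter
        ((isOpen_lt (cF.comp cadd) continuous_const).inter
          (isOpen_lt (cS.comp cadd) continuous_const))))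
    (fun s h => ⟨h.1.le, h.2.1.le, h.2.2.1.le, h.2.2.2.le⟩)
    (by
      show R ^ 2 / 4 ≤ R2 p v (t0 + 0) ∧ R2 p v (t0 + 0) ≤ 4 * R ^ 2 ∧
        F2 M p v (t0 + 0) ≤ (4 * η * R) ^ 2 ∧ S2 om M v (t0 + 0) ≤ (4 * R) ^ 2
      rw [add_zero]
      have h1 : 0 < R ^ 2 := by positivity
      have h2 : 0 < η ^ 2 * R ^ 2 := by positivity
      refine ⟨by linarith, by linarith, ?_, ?_⟩
      · nlinarith
      · nlinarith)
    (by
      intro s hs hP
      have hE : ∀ s' ∈ Icc 0 s, _ := fun s' hs' => boo_est lif bsl hal hB hm0 hη hη1 hR hBR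
        (t := t0 + s') hO hF hM hG (hP s' hs').2.1 (hP s' hs').2.2.1 (hP s' hs').2.2.2
      have m1 := boo_mvt hdR (t0 := t0) hs.1 (fun s' hs' => (hE s' hs').2.1)
      have m2 := boo_mvt hdF (t0 := t0) hs.1 (fun s' hs' => (hE s' hs').2.2.1)
      have m3 := boo_mvt hdS (t0 := t0) hs.1 (fun s' hs' => (hE s' hs').2.2.2)
      rw [← hC1] at m1 m2 m3
      have hle : C1 * R ^ al * R ^ 2 * s ≤ η ^ 2 / 2 * R ^ 2 := by
        have h1 : C1 * R ^ al * s ≤ C1 * R ^ al * T := by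
          apply mul_le_mul_of_nonneg_left hs.2
          have := Real.rpow_nonneg hR.le al
          positivity
        have h2 : C1 * R ^ al * R ^ 2 * s = (C1 * R ^ al * s) * R ^ 2 := by ring
        rw [h2]
        exact mul_le_mul_of_nonneg_right (h1.trans hRal) (by positivity)
      have h1 : 0 < R ^ 2 := by positivity
      have h2 : 0 < η ^ 2 * R ^ 2 := by positivity
      have h3 : η ^ 2 * R ^ 2 ≤ 1 * R ^ 2 := mul_le_mul_of_nonneg_right hη2 h1.le
      rw [abs_le] at m1 m2 m3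
      refine ⟨by linarith [m1.1], by linarith [m1.2], ?_, ?_⟩
      · nlinarith [m2.2]
      · nlinarith [m3.2])
  exact
    { gal := hG
      one := hM
      Rp := hR
      Re := hR2
      w0 := fun s hs => ⟨(key s hs).1, (key s hs).2.1⟩
      w1 := fun s hs => (key s hs).2.2.1
      w2 := fun s hs => (key s hs).2.2.2
      w3 := fun s hs => (boo_est lif bsl hal hB hm0 hη hη1 hR hBR (t := t0 + s) hO hF hM hG
        (key s hs).2.1 (key s hs).2.2.1 (key s hs).2.2.2).1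
      w4 := hBR }

end

end Pool.Agent.BEW.H11
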